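import Mathlib
import Pool.Agent.Lib.MP_746574_co.Core

/-!
# Graphs whose minimal-domination reconfiguration graph is a tree

For every finite nonempty simple graph `G`, the reconfiguration graph of the minimal dominating
sets of `G` is a tree if and only if `G` is the disjoint union of an edgeless graph and a star
`K_{1,m}` with `m ≥ 0` leaves.
-/

namespace Pool.Agent.Results.MP_746574_co.TreeIffStar

open Pool.Agent.Lib.MP_746574_co

universe u

variable {V : Type u}


/-- `S` is a dominating set of `G`: every vertex is in `S` or has a neighbour in `S`. -/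
def IsDominating (G : SimpleGraph V) (S : Set V) : Prop :=
  ∀ v, v ∈ S ∨ ∃ u ∈ S, G.Adj v u

/-- `M` is a minimal dominating set of `G`. -/
def IsMinimalDominating (G : SimpleGraph V) (M : Set V) : Prop :=
  IsDominating G M ∧ ∀ v ∈ M, ¬ IsDominating G (M \ {v})

/-- The reconfiguration graph of the minimal dominating sets of `G`. -/
def reconfigurationGraph (G : SimpleGraph V) :
    SimpleGraph {M : Set V // IsMinimalDominating G M} where
  Adj M₁ M₂ := M₁ ≠ M₂ ∧ ∃ v : V,
    ((M₂ : Set V) \ (M₁ : Set V) = {v} ∧ (M₁ : Set V) \ (M₂ : Set V) ⊆ G.neighborSet v) ∨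
    ((M₁ : Set V) \ (M₂ : Set V) = {v} ∧ (M₂ : Set V) \ (M₁ : Set V) ⊆ G.neighborSet v)
  symm := ⟨by
    rintro M₁ M₂ ⟨h, v, h1⟩
    exact ⟨h.symm, v, h1.symm⟩⟩
  loopless := ⟨fun M h => h.1 rfl⟩

variable {G : SimpleGraph V}

theorem md_iff (G : SimpleGraph V) (M : Set V) : MD G Set.univ M ↔ IsMinimalDominating G M := by
  constructor
  · rintro ⟨-, h2, h3⟩
    refine ⟨?_, ?_⟩
    · intro v
      obtain ⟨u, hu, h⟩ := h2 v (Set.mem_univ v)
      rcases h with h | h
      · exact Or.inl (h ▸ hu)
      · exact Or.inr ⟨u, hu, h⟩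
    · intro m hm hd
      obtain ⟨w, -, hw⟩ := h3 m hm
      rcases hd w with h | ⟨u, hu, h⟩
      · exact h.2 (hw w h.1 (Or.inl rfl))
      · exact hu.2 (hw u hu.1 (Or.inr h))
  · rintro ⟨h1, h2⟩
    refine ⟨fun x _ => Set.mem_univ x, ?_, ?_⟩
    · intro w _
      rcases h1 w with h | ⟨u, hu, h⟩
      · exact ⟨w, h, Or.inl rfl⟩
      · exact ⟨u, hu, Or.inr h⟩
    · intro m hm
      have := h2 m hm
      unfold IsDominating at this
      push Not at this
      obtain ⟨w, hw1, hw2⟩ := this
      refine ⟨w, Set.mem_univ w, ?_⟩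
      intro u hu h
      by_contra hne
      rcases h with h | h
      · exact hw1 ⟨h ▸ hu, h ▸ hne⟩
      · exact hw2 u ⟨hu, hne⟩ h

theorem ra_adj {A B : Set V} (hA : IsMinimalDominating G A) (hB : IsMinimalDominating G B)
    (h : RA G A B) : (reconfigurationGraph G).Adj ⟨A, hA⟩ ⟨B, hB⟩ := by
  have key : ∀ A B : Set V, EX G A B → A ≠ B ∧ ∃ v, B \ A = {v} ∧ A \ B ⊆ G.neighborSet v := by
    rintro A B ⟨v, h1, h2, h3, h4⟩
    refine ⟨fun e => h2 (e ▸ h1), v, ?_, ?_⟩
    · ext x
      constructor
      · rintro ⟨hx, hn⟩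
        exact h3 x hx hn
      · rintro rfl
        exact ⟨h1, h2⟩
    · rintro x ⟨hx, hn⟩
      exact h4 x hx hn
  rcases h with h | h
  · obtain ⟨h1, v, h2, h3⟩ := key A B h
    exact ⟨fun e => h1 (Subtype.ext_iff.1 e), v, Or.inl ⟨h2, h3⟩⟩
  · obtain ⟨h1, v, h2, h3⟩ := key B A h
    exact ⟨fun e => h1 (Subtype.ext_iff.1 e).symm, v, Or.inr ⟨h2, h3⟩⟩

open SimpleGraph in
theorem not_acyclic_of_cyc (h : Cyc G Set.univ) : ¬ (reconfigurationGraph G).IsAcyclic := by
  intro hac
  rcases h with ⟨a, b, c, ha, hb, hc, h1, h2, h3⟩ |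
    ⟨a, b, c, d, ha, hb, hc, hd, h1, h2, h3, h4, n1, n2⟩ |
    ⟨a, b, c, d, e, ha, hb, hc, hd, he, h1, h2, h3, h4, h5, n1, n2, n3, n4, n5⟩
  · rw [md_iff] at ha hb hc
    have e1 := ra_adj ha hb h1
    have e2 := ra_adj hb hc h2
    have e3 := ra_adj hc ha h3
    apply hac (Walk.cons e1 (Walk.cons e2 (Walk.cons e3 Walk.nil)))
    have := e1.ne; have := e2.ne; have := e3.ne
    simp_all [Walk.cons_isCycle_iff, Walk.cons_isPath_iff]
    grind
  · rw [md_iff] at ha hb hc hd
    have e1 := ra_adj ha hb h1
    have e2 := ra_adj hb hc h2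
    have e3 := ra_adj hc hd h3
    have e4 := ra_adj hd ha h4
    apply hac (Walk.cons e1 (Walk.cons e2 (Walk.cons e3 (Walk.cons e4 Walk.nil))))
    have := e1.ne; have := e2.ne; have := e3.ne; have := e4.ne
    simp_all [Walk.cons_isCycle_iff, Walk.cons_isPath_iff]
    grind
  · rw [md_iff] at ha hb hc hd he
    have e1 := ra_adj ha hb h1
    have e2 := ra_adj hb hc h2
    have e3 := ra_adj hc hd h3
    have e4 := ra_adj hd he h4
    have e5 := ra_adj he ha h5
    apply hac (Walk.cons e1 (Walk.cons e2 (Walk.cons e3 (Walk.cons e4 (Walk.cons e5 Walk.nil)))))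
    have := e1.ne; have := e2.ne; have := e3.ne; have := e4.ne; have := e5.ne
    simp_all [Walk.cons_isCycle_iff, Walk.cons_isPath_iff]
    grind

/-- in a star-like graph there are at most two minimal dominating sets -/
theorem starlike_tree {c : V} (hc : ∀ x y, G.Adj x y → x = c ∨ y = c) :
    (reconfigurationGraph G).IsTree := by
  classical
  set A : Set V := {x | ¬ G.Adj c x} with hA
  set B : Set V := {x | x ≠ c} with hB
  have hAm : IsMinimalDominating G A := by
    rw [← md_iff]
    apply MD_indep
    · exact fun x _ => Set.mem_univ x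
    · intro x hx y hy hxy
      rcases hc x y hxy with h | h
      · exact hy (h ▸ hxy)
      · exact hx (h ▸ hxy.symm)
    · intro w _ hw
      have : G.Adj c w := by
        by_contra h
        exact hw h
      exact ⟨c, G.irrefl, this.symm⟩
  have hAB : ∀ M, IsMinimalDominating G M → M = A ∨ M = B := by
    rintro M ⟨h1, h2⟩
    by_cases hcM : c ∈ M
    · left
      ext x
      constructor
      · intro hx hcx
        apply h2 x hx
        intro w
        have hxc : c ∈ M \ {x} := ⟨hcM, fun e => G.irrefl ((e : c = x) ▸ hcx)⟩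
        by_cases hwx : w = x
        · exact Or.inr ⟨c, hxc, hwx ▸ hcx.symm⟩
        · by_cases hwc : w = c
          · exact Or.inl (hwc ▸ hxc)
          · rcases h1 w with h | ⟨u, hu, h⟩
            · exact Or.inl ⟨h, hwx⟩
            · rcases hc w u h with h' | h'
              · exact absurd h' hwc
              · exact Or.inr ⟨c, hxc, h' ▸ h⟩
      · intro hx
        by_cases hxc : x = c
        · exact hxc ▸ hcM
        · rcases h1 x with h | ⟨u, hu, h⟩
          · exact h
          · rcases hc x u h with h' | h'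
            · exact absurd h' hxc
            · exact absurd (h' ▸ h).symm hx
    · right
      ext x
      constructor
      · rintro hx rfl
        exact hcM hx
      · intro hxc
        rcases h1 x with h | ⟨u, hu, h⟩
        · exact h
        · rcases hc x u h with h' | h'
          · exact absurd h' hxc
          · exact absurd (h' ▸ hu) hcM
  have hadj : ∀ M N : {M : Set V // IsMinimalDominating G M}, M ≠ N →
      (reconfigurationGraph G).Adj M N := by
    have key : ∀ M N : {M : Set V // IsMinimalDominating G M}, M.1 = A → N.1 = B →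
      (reconfigurationGraph G).Adj M N := by
      rintro ⟨M, hM⟩ ⟨N, hN⟩ h1 h2
      simp only at h1 h2
      subst h1
      subst h2
      apply ra_adj
      right
      refine ⟨c, G.irrefl, fun h => h rfl, ?_, ?_⟩
      · intro x hx hxB
        by_contra h
        exact hxB h
      · intro x hx hxA
        by_contra h
        exact hxA h
    intro M N hne
    rcases hAB M.1 M.2 with h1 | h1 <;> rcases hAB N.1 N.2 with h2 | h2
    · exact absurd (Subtype.ext (h1.trans h2.symm)) hne
    · exact key M N h1 h2
    · exact (key N M h2 h1).symm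
    · exact absurd (Subtype.ext (h1.trans h2.symm)) hne
  have : Nonempty {M : Set V // IsMinimalDominating G M} := ⟨⟨A, hAm⟩⟩
  have hpre : (reconfigurationGraph G).Preconnected := by
    intro M N
    by_cases h : M = N
    · exact h ▸ SimpleGraph.Reachable.refl _
    · exact (hadj M N h).reachable
  refine ⟨⟨hpre⟩, ?_⟩
  · intro M w hw
    have h3 := hw.three_le_length
    have hnd := hw.support_nodup
    have hlen : w.support.tail.length = w.length := by simp
    -- map to Bool
    have hnd2 : (w.support.tail.map (fun M => decide (M.1 = A))).Nodup := by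
      apply hnd.map_on
      intro x _ y _ hxy
      apply Subtype.ext
      rcases hAB x.1 x.2 with h1 | h1 <;> rcases hAB y.1 y.2 with h2 | h2
      · exact h1.trans h2.symm
      · by_cases e : A = B
        · rw [h1, h2, e]
        · simp [h1, h2, Ne.symm e] at hxy
      · by_cases e : A = B
        · rw [h1, h2, e]
        · simp [h1, h2, Ne.symm e] at hxy
      · exact h1.trans h2.symm
    have := hnd2.length_le_card
    simp at this
    omega

theorem form_iff [Finite V] (G : SimpleGraph V) :
    (∃ c, ∀ x y, G.Adj x y → x = c ∨ y = c) ↔ ∃ n m : ℕ,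
      Nonempty (G ≃g ((⊥ : SimpleGraph (Fin n)) ⊕g completeBipartiteGraph (Fin 1) (Fin m))) := by
  classical
  constructor
  · rintro ⟨c, hc⟩
    let S : Set V := {x | x ≠ c ∧ ¬ G.Adj c x}
    let L : Set V := {x | G.Adj c x}
    obtain ⟨n, ⟨eS⟩⟩ := Finite.exists_equiv_fin S
    obtain ⟨m, ⟨eL⟩⟩ := Finite.exists_equiv_fin L
    let g : Fin n ⊕ (Fin 1 ⊕ Fin m) → V :=
      Sum.elim (fun i => (eS.symm i).1) (Sum.elim (fun _ => c) (fun j => (eL.symm j).1))
    have hLa : ∀ j, G.Adj c (eL.symm j).1 := fun j => (eL.symm j).2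
    have hg : Function.Bijective g := by
      constructor
      · rintro (i | i | i) (j | j | j) h
        · simp only [g, Sum.elim_inl] at h
          have := eS.symm.injective (Subtype.ext h)
          rw [this]
        · simp only [g, Sum.elim_inl, Sum.elim_inr] at h
          exact absurd h (eS.symm i).2.1
        · simp only [g, Sum.elim_inl, Sum.elim_inr] at h
          have h3 := hLa j
          rw [← h] at h3
          exact absurd h3 (eS.symm i).2.2
        · simp only [g, Sum.elim_inl, Sum.elim_inr] at h
          exact absurd h.symm (eS.symm j).2.1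
        · rw [Subsingleton.elim i j]
        · simp only [g, Sum.elim_inl, Sum.elim_inr] at h
          have h3 := hLa j
          rw [← h] at h3
          exact absurd h3 G.irrefl
        · simp only [g, Sum.elim_inl, Sum.elim_inr] at h
          have h3 := hLa i
          rw [h] at h3
          exact absurd h3 (eS.symm j).2.2
        · simp only [g, Sum.elim_inl, Sum.elim_inr] at h
          have h3 := hLa i
          rw [h] at h3
          exact absurd h3 G.irrefl
        · simp only [g, Sum.elim_inr] at h
          have := eL.symm.injective (Subtype.ext h)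
          rw [this]
      · intro x
        by_cases h1 : x = c
        · exact ⟨Sum.inr (Sum.inl 0), by simp [g, h1]⟩
        by_cases h2 : G.Adj c x
        · exact ⟨Sum.inr (Sum.inr (eL ⟨x, h2⟩)), by simp [g]⟩
        · exact ⟨Sum.inl (eS ⟨x, h1, h2⟩), by simp [g]⟩
    have hadj : ∀ a b, G.Adj (g a) (g b) ↔
        ((⊥ : SimpleGraph (Fin n)) ⊕g completeBipartiteGraph (Fin 1) (Fin m)).Adj a b := by
      have hiso : ∀ (i : Fin n) (y : V), ¬ G.Adj (eS.symm i).1 y := by
        intro i y h
        rcases hc _ _ h with h' | h'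
        · exact (eS.symm i).2.1 h'
        · exact (eS.symm i).2.2 (h' ▸ h).symm
      rintro (i | i | i) (j | j | j)
      · simpa [g] using hiso i _
      · simpa [g] using hiso i _
      · simpa [g] using hiso i _
      · simpa [g] using fun h => hiso j _ (SimpleGraph.Adj.symm h)
      · simp [g]
      · simpa [g] using hLa j
      · simpa [g] using fun h => hiso j _ (SimpleGraph.Adj.symm h)
      · simpa [g] using (hLa i).symm
      · have : ¬ G.Adj (eL.symm i).1 (eL.symm j).1 := by
          intro h
          rcases hc _ _ h with h' | h'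
          · have h3 := hLa i
            rw [h'] at h3
            exact G.irrefl h3
          · have h3 := hLa j
            rw [h'] at h3
            exact G.irrefl h3
        simpa [g] using this
    refine ⟨n, m, ⟨SimpleGraph.Iso.symm ⟨Equiv.ofBijective g hg, ?_⟩⟩⟩
    intro a b
    exact hadj a b
  · rintro ⟨n, m, ⟨φ⟩⟩
    refine ⟨φ.symm (Sum.inr (Sum.inl 0)), ?_⟩
    intro x y hxy
    have h := φ.map_adj_iff.2 hxy
    have hx : φ.symm (φ x) = x := φ.symm_apply_apply x
    have hy : φ.symm (φ y) = y := φ.symm_apply_apply y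
    rcases h1 : φ x with i | i | i <;> rcases h2 : φ y with j | j | j <;> rw [h1, h2] at h
    · simp at h
    · simp at h
    · simp at h
    · simp at h
    · left; rw [← hx, h1, Subsingleton.elim i 0]
    · left; rw [← hx, h1, Subsingleton.elim i 0]
    · simp at h
    · right; rw [← hy, h2, Subsingleton.elim j 0]
    · simp at h

theorem result {V : Type u} [Finite V] [Nonempty V] (G : SimpleGraph V) :
    (reconfigurationGraph G).IsTree ↔ ∃ n m : ℕ,
      Nonempty (G ≃g ((⊥ : SimpleGraph (Fin n)) ⊕g completeBipartiteGraph (Fin 1) (Fin m))) := by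
  rw [← form_iff]
  constructor
  · intro h
    by_contra hn
    apply not_acyclic_of_cyc (main G _ Set.univ le_rfl ?_) h.isAcyclic
    rintro ⟨c, hc⟩
    exact hn ⟨c, fun x y => hc x (Set.mem_univ x) y (Set.mem_univ y)⟩
  · rintro ⟨c, hc⟩
    exact starlike_tree hc

end Pool.Agent.Results.MP_746574_co.TreeIffStar
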